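import Pool.Agent.R423.DL.Ls

/-!
# For newforms of level one and odd quadratic `χ` one of `L(f ⊗ ψ, 1/2)`, `L(f ⊗ χψ, 1/2)` vanishes

For a cusp form `f` of level one and even weight `k` and a real primitive character `ψ` the sign in the
functional equation of `L(f ⊗ ψ, s)` is `(-1)^(k/2) ψ(-1)`.  So if `χ(-1) = -1`, then the signs for `ψ`
and for `χψ` are opposite, for every `ψ`, and one of the two central values is zero.  For instance
`f = Δ` and `χ` the character of `ℚ(i)`.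
-/

set_option autoImplicit false

open UpperHalfPlane hiding I
open Complex Filter Topology MatrixGroups

namespace Pool.Agent.Results.MP_d17ed7_nt.LevelOneTwists

/-- `L` is the L-function of `f ⊗ ψ`, in the analytic normalisation: it is entire and equal to the
convergent series `∑ ψ(n) a_n n^(-(s + (k - 1) / 2))` for `Re s > 3/2`; `a_n` are the coefficients of
the `q`-expansion of the cusp form `f` of level one and weight `k` -/
def IsLFunction {k : ℤ} (f : CuspForm 𝒮ℒ k) {q : ℕ} (ψ : DirichletCharacter ℂ q) (L : ℂ → ℂ) :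
    Prop :=
  Differentiable ℂ L ∧ ∀ s : ℂ, 3 / 2 < s.re →
    HasSum (fun n : ℕ => ψ (n : ZMod q) * (qExpansion 1 f).coeff n *
      (n : ℂ) ^ (-(s + (k - 1) / 2))) (L s)

/-- `ρ` is the primitive character inducing `χψ` -/
def IsPrimitiveProduct {m q r : ℕ} (χ : DirichletCharacter ℂ m) (ψ : DirichletCharacter ℂ q)
    (ρ : DirichletCharacter ℂ r) : Prop :=
  ρ.IsPrimitive ∧ ∀ n : ℕ, n.Coprime (m * q) →
    ρ (n : ZMod r) = χ (n : ZMod m) * ψ (n : ZMod q)

lemma inv_of_sq {q : ℕ} {χ : DirichletCharacter ℂ q} (h : χ ^ 2 = 1) : χ⁻¹ = χ := by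
  rw [pow_two] at h
  exact (eq_inv_of_mul_eq_one_left h).symm

lemma unique {k : ℤ} {f : CuspForm 𝒮ℒ k} {q : ℕ} {ψ : DirichletCharacter ℂ q} {L L' : ℂ → ℂ}
    (h : IsLFunction f ψ L) (h' : IsLFunction f ψ L') : L = L' := by
  have hF' : AnalyticOnNhd ℂ L Set.univ := fun z _ => h.1.analyticAt z
  have hG' : AnalyticOnNhd ℂ L' Set.univ := fun z _ => h'.1.analyticAt z
  refine hF'.eq_of_eventuallyEq hG' (z₀ := 2) ?_
  have hopen : IsOpen {s : ℂ | 3 / 2 < s.re} := isOpen_lt continuous_const Complex.continuous_re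
  filter_upwards [hopen.mem_nhds (show (2 : ℂ) ∈ {s : ℂ | 3 / 2 < s.re} by
    simp; norm_num)] with s hs
  exact (h.2 s hs).unique (h'.2 s hs)

/-- **One of the two twists vanishes.**  For every cusp form `f` of level one and even weight `k > 0`
(for every newform of level one, such as `Δ`), every primitive odd `χ` with `χ² = 1`, every primitive
`ψ` with `ψ² = 1` and the primitive character `ρ` inducing `χψ`, the L-functions of `f ⊗ ψ` and
`f ⊗ χψ` exist, and the product of their values at `1/2` is `0`. -/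
theorem result (k : ℤ) (hk : 0 < k) (hk2 : Even k) (f : CuspForm 𝒮ℒ k) :
    (∀ (q : ℕ) (ψ : DirichletCharacter ℂ q), 0 < q → ψ.IsPrimitive → ψ ^ 2 = 1 →
      ∃! L : ℂ → ℂ, IsLFunction f ψ L) ∧
    ∀ (m : ℕ) (χ : DirichletCharacter ℂ m), 0 < m → χ.IsPrimitive → χ ^ 2 = 1 → χ (-1) = -1 →
      ∀ (q : ℕ) (ψ : DirichletCharacter ℂ q), 0 < q → ψ.IsPrimitive → ψ ^ 2 = 1 →
        ∀ (r : ℕ) (ρ : DirichletCharacter ℂ r), 0 < r → IsPrimitiveProduct χ ψ ρ →
          ∀ L₁ L₂ : ℂ → ℂ, IsLFunction f ψ L₁ → IsLFunction f ρ L₂ →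
            L₁ (1 / 2) * L₂ (1 / 2) = 0 := by
  have hex : ∀ (q : ℕ) (ψ : DirichletCharacter ℂ q) (hq : 0 < q), ψ.IsPrimitive → ψ ^ 2 = 1 →
      ∃ L : ℂ → ℂ, IsLFunction f ψ L ∧ (ψ (-1) * I ^ k = -1 → L (1 / 2) = 0) := by
    intro q ψ hq hψ hψ2
    have : NeZero q := ⟨hq.ne'⟩
    have hr := inv_of_sq hψ2
    exact ⟨R423.DL.Ltw f q ψ, ⟨R423.DL.Ltw_diff f q ψ hk hr,
      fun s hs => R423.DL.Ltw_hasSum f q ψ hψ hr hk hs⟩, fun h => R423.DL.Ltw_center f q ψ hk hr h⟩
  refine ⟨fun q ψ hq hψ hψ2 => ?_, ?_⟩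
  · obtain ⟨L, hL, -⟩ := hex q ψ hq hψ hψ2
    exact ⟨L, hL, fun L' hL' => unique hL' hL⟩
  · intro m χ hm hχ hχ2 hodd q ψ hq hψ hψ2 r ρ hr hρ L₁ L₂ h₁ h₂
    have hI : I ^ k = 1 ∨ I ^ k = -1 := by
      obtain ⟨j, rfl⟩ := hk2
      rw [← two_mul, zpow_mul]
      have : I ^ (2 : ℤ) = -1 := by rw [zpow_ofNat, I_sq]
      rw [this]
      rcases Int.even_or_odd j with h | h
      · exact Or.inl h.neg_one_zpow
      · exact Or.inr h.neg_one_zpow
    have hψ1 : ψ (-1) = 1 ∨ ψ (-1) = -1 := by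
      have : ψ (-1) * ψ (-1) = 1 := by rw [← map_mul]; norm_num
      exact mul_self_eq_one_iff.1 this
    -- the value of `ρ` at `-1`
    have hρ1 : ρ (-1) = -ψ (-1) := by
      have hM : 0 < m * q * r := by positivity
      have hcop : (m * q * r - 1).Coprime (m * q) := by
        have h1 : (m * q * r - 1).Coprime (m * q * r) := by
          have h2 : m * q * r = (m * q * r - 1) + 1 := by omega
          conv_rhs => rw [h2]
          exact (Nat.coprime_self_add_right).2 (Nat.coprime_one_right _)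
        exact Nat.Coprime.coprime_dvd_right (dvd_mul_right _ _) h1
      have hcast : ∀ d : ℕ, d ∣ m * q * r → (((m * q * r - 1 : ℕ)) : ZMod d) = -1 := by
        intro d hd
        rw [Nat.cast_sub (by omega : 1 ≤ m * q * r), (ZMod.natCast_eq_zero_iff _ _).2 hd]
        simp
      have h3 := hρ.2 (m * q * r - 1) hcop
      rw [hcast r (dvd_mul_left _ _), hcast m ⟨q * r, by ring⟩, hcast q ⟨m * r, by ring⟩, hodd] at h3
      rw [h3]
      ring
    have hρ2 : ρ ^ 2 = 1 := by
      have hM : 0 < m * q * r := by positivity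
      have : NeZero (m * q * r) := ⟨hM.ne'⟩
      ext u
      obtain ⟨v, hv⟩ := ZMod.unitsMap_surjective (Dvd.intro_left (m * q) rfl : r ∣ m * q * r) u
      have hn : (v : ZMod (m * q * r)).val.Coprime (m * q * r) := ZMod.val_coe_unit_coprime v
      set n := (v : ZMod (m * q * r)).val with hndef
      have hnu : (n : ZMod r) = (u : ZMod r) := by
        rw [← hv, ZMod.unitsMap_val, ← ZMod.natCast_val]
      have h3 := hρ.2 n (Nat.Coprime.coprime_dvd_right (dvd_mul_right _ _) hn)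
      rw [hnu] at h3
      have hm1 : IsUnit (n : ZMod m) := (ZMod.isUnit_iff_coprime n m).2
        (Nat.Coprime.coprime_dvd_right ⟨q * r, by ring⟩ hn)
      have hq1 : IsUnit (n : ZMod q) := (ZMod.isUnit_iff_coprime n q).2
        (Nat.Coprime.coprime_dvd_right ⟨m * r, by ring⟩ hn)
      have e1 : χ (n : ZMod m) * χ (n : ZMod m) = 1 := by
        rw [← MulChar.mul_apply, ← pow_two, hχ2, MulChar.one_apply hm1]
      have e2 : ψ (n : ZMod q) * ψ (n : ZMod q) = 1 := by
        rw [← MulChar.mul_apply, ← pow_two, hψ2, MulChar.one_apply hq1]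
      rw [pow_two, MulChar.mul_apply, h3, MulChar.one_apply_coe]
      calc χ (n : ZMod m) * ψ (n : ZMod q) * (χ (n : ZMod m) * ψ (n : ZMod q)) =
          (χ (n : ZMod m) * χ (n : ZMod m)) * (ψ (n : ZMod q) * ψ (n : ZMod q)) := by ring
        _ = 1 := by rw [e1, e2, one_mul]
    obtain ⟨L₁', g₁, z₁⟩ := hex q ψ hq hψ hψ2
    obtain ⟨L₂', g₂, z₂⟩ := hex r ρ hr hρ.1 hρ2
    rw [unique h₁ g₁, unique h₂ g₂]
    rw [hρ1] at z₂
    by_cases hc : ψ (-1) * I ^ k = -1
    · rw [z₁ hc, zero_mul]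
    · rw [z₂ ?_, mul_zero]
      have h9 : ψ (-1) * I ^ k = 1 ∨ ψ (-1) * I ^ k = -1 := by
        rcases hI with h | h <;> rcases hψ1 with h' | h' <;> rw [h, h'] <;> norm_num
      rcases h9 with h9 | h9
      · linear_combination -h9
      · exact absurd h9 hc

end Pool.Agent.Results.MP_d17ed7_nt.LevelOneTwists
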